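import Pool.Agent.Helper59.DGL.Tr
import Pool.Agent.Helper68.DG.GD

/-!
# Project DGL (MP_800410_an, De Giorgi), piece A: the count for stable solutions
-/

set_option autoImplicit false

open MeasureTheory Metric Set Filter Topology
open scoped ContDiff

namespace Pool.Agent.Helper59.DGL

open Pool.Agent.Helper68.DG Pool.Agent.Helper70.DGL

/-- Piece A. -/
theorem s_A (hTH : S_TH) (hCH : S_CH) (hFC : S_FC) (hCL : S_CL) : S_A := by
  intro ι _ _ p _ hcard K r δ ε hδ hε
  obtain ⟨N, hN⟩ := hCL ι K r δ hδ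
  obtain ⟨CF, hCF0, hCF⟩ := hFC ι K N
  obtain ⟨CT, hCT0, hCT⟩ := hTH {i // p i} (2 * N + 2)
  obtain ⟨CH, hCH0, hCH⟩ := hCH {i // p i}
  obtain ⟨C1, hC10, hC1⟩ := gd_cut_energy hcard
  obtain ⟨C2, hC20, hC2⟩ := cut_facts (ι := {i // ¬ p i})
  set m : ℕ := Fintype.card {i // p i} with hm
  set A : ℝ := CT * CF * K ^ 2 * CH * 2 ^ m with hA
  have hA0 : 0 ≤ A := by positivity
  obtain ⟨T, hT1, hTN, hTe⟩ : ∃ T : ℝ, 1 ≤ T ∧ Real.log (1 + ((N : ℝ) + 1) ^ 2) / 2 ≤ T ∧
      2 * A * C1 / ε ≤ T :=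
    ⟨max (max 1 (Real.log (1 + ((N : ℝ) + 1) ^ 2) / 2)) (2 * A * C1 / ε),
      (le_max_left _ _).trans (le_max_left _ _), (le_max_right _ _).trans (le_max_left _ _),
      le_max_right _ _⟩
  have hT0 : 0 < T := by linarith
  obtain ⟨c1, c2, c3, c4, c5, c6⟩ := hC2 T hT1
  set I : ℝ := ∫ y : V {i // ¬ p i}, cut T y ^ 2 with hI
  have hI0 : 0 ≤ I := integral_nonneg fun y => sq_nonneg _
  refine ⟨max ((N : ℝ) + 1) (A * I / (2 * ε)), fun R hR u hu hst a S hS1 hSa hSb => ?_⟩
  have hR1 : (N : ℝ) + 1 ≤ R := (le_max_left _ _).trans hR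
  have hR2 : A * I / (2 * ε) ≤ R := (le_max_right _ _).trans hR
  have hN0 : (0 : ℝ) ≤ N := Nat.cast_nonneg N
  have hR1' : 1 ≤ R := by linarith
  have hR0 : 0 < R := by linarith
  obtain ⟨S', hS'S, hS'sep, hS'card⟩ := hCT S hS1
  obtain ⟨χ, x1, x2, x3, x4, x5, x6, x7, x8⟩ := hCH (2 * R) (by linarith) a
  -- the cutoff
  set ξ : V ι → ℝ := fun x => χ (prj p x) * cut T (prj (fun i => ¬ p i) x) with hξ
  have hξ1 : T1 ξ := T1_prod p x1 c1
  have hinj : Function.Injective (emb p : V {i // p i} → V ι) := by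
    intro y z hyz
    rw [← prj_emb p y, ← prj_emb p z, hyz]
  classical
  have hcount := hCF u hu hst (S'.image (emb p)) ?_ ?_ ξ hξ1 ?_
  · rw [Finset.card_image_of_injective _ hinj] at hcount
    have hgd : Continuous (gd ξ ξ) := continuous_gd hξ1.1 hξ1.1
    have hgdi : Integrable (gd ξ ξ) := integrable_gd hξ1.1 hξ1
    have h1 : ∫ x, gd u u x * gd ξ ξ x ≤ K ^ 2 * ∫ x, gd ξ ξ x := by
      rw [← integral_const_mul]
      apply integral_mono _ (hgdi.const_mul _)
      · intro x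
        show gd u u x * gd ξ ξ x ≤ K ^ 2 * gd ξ ξ x
        apply mul_le_mul_of_nonneg_right _ (gd_self_nonneg _ _)
        rw [gd_self]
        exact pow_le_pow_left₀ (norm_nonneg _) (hu.bdd1 x) 2
      · exact integrable_cs ((continuous_gd hu.C1 hu.C1).mul hgd)
          (hasCompactSupport_gd hξ1.2).mul_left
    have h2 : ∫ x, gd ξ ξ x = (∫ y, gd χ χ y) * I +
        (∫ y, χ y ^ 2) * ∫ z : V {i // ¬ p i}, gd (cut T) (cut T) z := int_gd_prod p x1 c1
    have h3 : ∫ y, gd χ χ y ≤ CH / (2 * R) ^ 2 * (2 * R) ^ m := by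
      have : ∀ y, gd χ χ y = ‖fderiv ℝ χ y‖ ^ 2 := gd_self χ
      simp only [this]
      exact x8
    have h4 : ∫ y, χ y ^ 2 ≤ CH * (2 * R) ^ m := by
      refine le_trans ?_ x6
      apply integral_mono
      · exact integrable_cs (x1.continuous.pow 2)
          (x1.2.comp_left (g := fun t : ℝ => t ^ 2) (by norm_num))
      · exact integrable_cs x1.continuous x1.2
      · intro y
        show χ y ^ 2 ≤ χ y
        nlinarith [(x2 y).1, (x2 y).2]
    have h5 : ∫ z : V {i // ¬ p i}, gd (cut T) (cut T) z ≤ C1 / T := hC1 T hT1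
    have h50 : 0 ≤ ∫ z : V {i // ¬ p i}, gd (cut T) (cut T) z :=
      integral_nonneg fun z => gd_self_nonneg _ _
    have h6 : ∫ x, gd ξ ξ x ≤ CH * 2 ^ m * R ^ m * (I / (4 * R ^ 2) + C1 / T) := by
      rw [h2]
      calc _ ≤ CH / (2 * R) ^ 2 * (2 * R) ^ m * I + CH * (2 * R) ^ m * (C1 / T) := by
            apply add_le_add
            · exact mul_le_mul_of_nonneg_right h3 hI0
            · exact mul_le_mul h4 h5 h50 (by positivity)
        _ = _ := by
            rw [mul_pow, mul_pow]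
            field_simp
            ring
    have h7 : (S.card : ℝ) ≤ A * R ^ m * (I / (4 * R ^ 2) + C1 / T) := by
      calc (S.card : ℝ) ≤ CT * S'.card := hS'card
        _ ≤ CT * (CF * ∫ x, gd u u x * gd ξ ξ x) := mul_le_mul_of_nonneg_left hcount hCT0.le
        _ ≤ CT * (CF * (K ^ 2 * (CH * 2 ^ m * R ^ m * (I / (4 * R ^ 2) + C1 / T)))) := by
            apply mul_le_mul_of_nonneg_left _ hCT0.le
            apply mul_le_mul_of_nonneg_left _ hCF0
            exact h1.trans (mul_le_mul_of_nonneg_left h6 (by positivity))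
        _ = _ := by rw [hA]; ring
    have h8 : A * (I / (4 * R ^ 2)) ≤ ε / 2 := by
      rw [div_le_iff₀ (by positivity)] at hR2
      have h9 : A * (I / (4 * R ^ 2)) = A * I / (4 * R ^ 2) := by ring
      rw [h9, div_le_iff₀ (by positivity)]
      have h10 : 0 ≤ ε * R * (R - 1) := mul_nonneg (by positivity) (by linarith)
      have h11 : ε / 2 * (4 * R ^ 2) = R * (2 * ε) + 2 * (ε * R * (R - 1)) := by ring
      rw [h11]
      linarith
    have h9 : A * (C1 / T) ≤ ε / 2 := by
      rw [div_le_iff₀ hε] at hTe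
      have h10 : A * (C1 / T) = A * C1 / T := by ring
      rw [h10, div_le_iff₀ hT0]
      linarith
    calc (S.card : ℝ) ≤ A * R ^ m * (I / (4 * R ^ 2) + C1 / T) := h7
      _ = (A * (I / (4 * R ^ 2)) + A * (C1 / T)) * R ^ m := by ring
      _ ≤ ε * R ^ m := mul_le_mul_of_nonneg_right (by linarith) (by positivity)
  · -- separation
    intro v hv w hw hvw
    obtain ⟨y, hy, rfl⟩ := Finset.mem_image.1 hv
    obtain ⟨z, hz, rfl⟩ := Finset.mem_image.1 hw
    rw [← map_sub, norm_emb]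
    exact hS'sep y hy z hz fun h => hvw (by rw [h])
  · -- large defect
    intro v hv hSD
    obtain ⟨z, hz, rfl⟩ := Finset.mem_image.1 hv
    exact hSb z (hS'S hz) (hN _ (gs_tr hu _) (stab_tr hst _) hSD)
  · -- the cutoff is one near the places
    intro v hv x hx
    obtain ⟨z, hz, rfl⟩ := Finset.mem_image.1 hv
    have e1 : ‖prj p x - z‖ ≤ N + 1 := by
      have : prj p x - z = prj p (x - emb p z) := by rw [map_sub, prj_emb]
      rw [this]
      exact (norm_prj_le p _).trans hx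
    have e2 : ‖prj p x - a‖ ≤ 2 * R := by
      have := norm_add_le (prj p x - z) (z - a)
      rw [sub_add_sub_cancel] at this
      have := hSa z (hS'S hz)
      linarith
    have e3 : ‖prj (fun i => ¬ p i) x‖ ≤ N + 1 := by
      have : prj (fun i => ¬ p i) x = prj (fun i => ¬ p i) (x - emb p z) := by
        rw [map_sub, prj_not_emb, sub_zero]
      rw [this]
      exact (norm_prj_le _ _).trans hx
    show χ (prj p x) * cut T (prj (fun i => ¬ p i) x) = 1
    rw [x3 _ e2, c3 _ ((lg_le_of_norm e3).trans hTN), mul_one]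

end Pool.Agent.Helper59.DGL
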