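import Pool.Agent.Helper70.DGL.Fr
import Pool.Agent.Helper68.DG.D2

/-!
# Project DGL (MP_800410_an, De Giorgi), piece EA: the energy of one-dimensional solutions
-/

set_option autoImplicit false

open MeasureTheory Metric Set Filter Topology
open scoped ContDiff

namespace Pool.Agent.Helper59.DGL

open Pool.Agent.Helper68.DG Pool.Agent.Helper70.DGL

variable {ι : Type} [Fintype ι]

/-- The energy of a strictly monotone one-dimensional solution (the proof of `d2_unit` with the
constant `K ^ 2`). -/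
theorem ea_unit {K : ℝ} {v : V ι → ℝ} (hv : GS K v) {a : V ι} (ha : ‖a‖ = 1)
    (hb : ∀ b : V ι, inner ℝ a b = 0 → ∀ x, fderiv ℝ v x b = 0)
    (hp : ∀ x, 0 < fderiv ℝ v x a) :
    ∀ ζ : V ι → ℝ, T1 ζ → (∀ x, 0 ≤ ζ x) → ∫ x, ζ x * en v x ≤ K ^ 2 * ∫ x, ‖fderiv ℝ ζ x‖ := by
  have haa : inner ℝ a a = (1 : ℝ) := by rw [real_inner_self_eq_norm_sq, ha]; norm_num
  have hdiff : Differentiable ℝ v := hv.C1.differentiable one_ne_zero
  have hD : ContDiff ℝ 1 (fun y => fderiv ℝ v y a) :=
    (hv.smooth.fderiv_right (m := 1) (by norm_num)).clm_apply contDiff_const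
  set g : ℝ → ℝ := fun t => v (t • a) with hgdef
  have hline : ∀ t : ℝ, HasDerivAt (fun s : ℝ => s • a) a t := by
    intro t
    have h := (hasDerivAt_id t).smul_const a
    rw [one_smul] at h
    exact h
  have hg : ContDiff ℝ 2 g := hv.smooth.comp (contDiff_id.smul contDiff_const)
  have hg1 : ∀ t, HasDerivAt g (fderiv ℝ v (t • a) a) t := fun t =>
    (hdiff (t • a)).hasFDerivAt.comp_hasDerivAt t (hline t)
  have hg1' : deriv g = fun t => fderiv ℝ v (t • a) a := by
    funext t; exact (hg1 t).deriv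
  have hg2 : ∀ t, deriv (deriv g) t = g t ^ 3 - g t := by
    intro t
    have h1 : HasDerivAt (fun t : ℝ => fderiv ℝ v (t • a) a)
        (fderiv ℝ (fun y => fderiv ℝ v y a) (t • a) a) t := by
      have h2 := ((hD.differentiable one_ne_zero) (t • a)).hasFDerivAt
      exact h2.comp_hasDerivAt t (hline t)
    rw [hg1', h1.deriv, ← d2_lap hv.smooth ha hb, lap_eq hv]
  have hen1 := energy_1d hg (M := K) (fun t => hv.bdd _) (fun t => by rw [hg1']; exact hp _) hg2
  have hv2 : ∀ x, v x = g (inner ℝ a x) := fun x => d2_ridge hdiff ha hb x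
  have hDx : ∀ x, fderiv ℝ v x a = deriv g (inner ℝ a x) := by
    intro x
    have h1 : HasDerivAt (fun s : ℝ => v (x + s • a)) (fderiv ℝ v x a) 0 := by
      have h2 : HasDerivAt (fun s : ℝ => x + s • a) a 0 := (hline 0).const_add x
      have h3 : HasFDerivAt v (fderiv ℝ v x) (x + (0 : ℝ) • a) := by
        rw [zero_smul, add_zero]; exact (hdiff x).hasFDerivAt
      exact h3.comp_hasDerivAt 0 h2
    have h4 : (fun s : ℝ => v (x + s • a)) = fun s : ℝ => g (inner ℝ a x + s) := by
      funext s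
      rw [hv2, inner_add_right, real_inner_smul_right, haa, mul_one]
    rw [h4] at h1
    have h5 : HasDerivAt (fun s : ℝ => g (inner ℝ a x + s)) (deriv g (inner ℝ a x)) 0 := by
      have h6 : HasDerivAt g (deriv g (inner ℝ a x)) (inner ℝ a x + 0) := by
        rw [add_zero]; exact (hg.differentiable (by norm_num) _).hasDerivAt
      have h7 := h6.comp (0 : ℝ) ((hasDerivAt_id (0 : ℝ)).const_add (inner ℝ a x : ℝ))
      rw [mul_one] at h7
      exact h7
    exact h1.unique h5
  have hen : ∀ x, en v x = (fderiv ℝ v x a) ^ 2 := by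
    intro x
    unfold en
    rw [d2_gd ha hb x]
    have h1 := hen1 (inner ℝ a x)
    rw [← hDx, ← hv2] at h1
    linarith
  have hDK : ∀ x, fderiv ℝ v x a ≤ K := by
    intro x
    have h1 := (fderiv ℝ v x).le_opNorm a
    rw [ha, mul_one] at h1
    exact (le_abs_self _).trans (h1.trans (hv.bdd1 x))
  intro ζ hζ hζ0
  have hcen : Continuous (en v) := by
    have : en v = fun x => (fderiv ℝ v x a) ^ 2 := by funext x; exact hen x
    rw [this]
    exact hD.continuous.pow 2
  have i1 : Integrable (fun x => ζ x * en v x) :=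
    integrable_cs (hζ.continuous.mul hcen) hζ.2.mul_right
  have i2 : Integrable (fun x => fderiv ℝ v x a * ζ x) := integrable_mul_T1 hD.continuous hζ
  have i3 : Integrable (fun x => ‖fderiv ℝ ζ x‖) :=
    integrable_cs (hζ.1.continuous_fderiv one_ne_zero).norm (hζ.2.fderiv (𝕜 := ℝ)).norm
  have s1 : ∫ x, ζ x * en v x ≤ ∫ x, K * (fderiv ℝ v x a * ζ x) := by
    apply integral_mono i1 (i2.const_mul K)
    intro x
    show ζ x * en v x ≤ K * (fderiv ℝ v x a * ζ x)
    rw [hen]
    have h1 : (fderiv ℝ v x a) ^ 2 ≤ K * fderiv ℝ v x a := by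
      rw [pow_two]
      exact mul_le_mul_of_nonneg_right (hDK x) (hp x).le
    nlinarith [mul_le_mul_of_nonneg_left h1 (hζ0 x)]
  have s2 : ∫ x, fderiv ℝ v x a * ζ x = - ∫ x, v x * fderiv ℝ ζ x a := by
    have e1 : (fun x => fderiv ℝ v x a * ζ x) = fun x => ∑ i, a i * (pd i v x * ζ x) := by
      funext x
      rw [fderiv_apply_eq, Finset.sum_mul]
      apply Finset.sum_congr rfl
      intro i _
      ring
    have e2 : (fun x => v x * fderiv ℝ ζ x a) = fun x => ∑ i, a i * (v x * pd i ζ x) := by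
      funext x
      rw [fderiv_apply_eq, Finset.mul_sum]
      apply Finset.sum_congr rfl
      intro i _
      ring
    rw [e1, e2, integral_finsetSum, integral_finsetSum, ← Finset.sum_neg_distrib]
    · apply Finset.sum_congr rfl
      intro i _
      rw [integral_const_mul, integral_const_mul, ibp hv.C1 hζ i]
      ring
    · intro i _
      exact (integrable_cs (hv.C1.continuous.mul (continuous_pd hζ.1 i))
        (hasCompactSupport_pd hζ.2 i).mul_left).const_mul _
    · intro i _
      exact (integrable_mul_T1 (continuous_pd hv.C1 i) hζ).const_mul _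
  have s3 : - ∫ x, v x * fderiv ℝ ζ x a ≤ ∫ x, K * ‖fderiv ℝ ζ x‖ := by
    rw [← integral_neg]
    apply integral_mono _ (i3.const_mul K)
    · intro x
      show -(v x * fderiv ℝ ζ x a) ≤ K * ‖fderiv ℝ ζ x‖
      have h1 := (fderiv ℝ ζ x).le_opNorm a
      rw [ha, mul_one, Real.norm_eq_abs] at h1
      calc -(v x * fderiv ℝ ζ x a) ≤ |v x * fderiv ℝ ζ x a| := neg_le_abs _
        _ = |v x| * |fderiv ℝ ζ x a| := abs_mul _ _
        _ ≤ K * ‖fderiv ℝ ζ x‖ :=
          mul_le_mul (hv.bdd x) h1 (abs_nonneg _) hv.K_nonneg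
    · apply Integrable.neg
      have hc : Continuous (fun x => fderiv ℝ ζ x a) :=
        (hζ.1.continuous_fderiv one_ne_zero).clm_apply continuous_const
      have hcs : HasCompactSupport (fun x => fderiv ℝ ζ x a) :=
        (hζ.2.fderiv (𝕜 := ℝ)).comp_left (g := fun L : V ι →L[ℝ] ℝ => L a) (by simp)
      exact integrable_cs (hv.C1.continuous.mul hc) hcs.mul_left
  calc ∫ x, ζ x * en v x ≤ ∫ x, K * (fderiv ℝ v x a * ζ x) := s1
    _ = K * ∫ x, fderiv ℝ v x a * ζ x := integral_const_mul _ _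
    _ ≤ K * ∫ x, K * ‖fderiv ℝ ζ x‖ := by
      apply mul_le_mul_of_nonneg_left _ hv.K_nonneg
      rw [s2]; exact s3
    _ = K ^ 2 * ∫ x, ‖fderiv ℝ ζ x‖ := by rw [integral_const_mul, pow_two, mul_assoc]

theorem ea_const {K : ℝ} {v : V ι → ℝ} {c : ℝ} (hc : c ^ 2 = 1) (h : ∀ x, v x = c) :
    ∀ ζ : V ι → ℝ, T1 ζ → (∀ x, 0 ≤ ζ x) → ∫ x, ζ x * en v x ≤ K ^ 2 * ∫ x, ‖fderiv ℝ ζ x‖ := by
  have hv : v = fun _ => c := funext h
  intro ζ _ _
  have he : ∀ x, en v x = 0 := by
    intro x
    unfold en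
    rw [gd_self, hv]
    simp [hc]
  simp only [he, mul_zero, integral_zero]
  exact mul_nonneg (sq_nonneg K) (integral_nonneg fun x => norm_nonneg _)

/-- Piece EA. -/
theorem s_EA : S_EA := by
  intro ι _ K v hv ham
  obtain ⟨a, hb, h | h | h⟩ := ham
  · have ha : a ≠ 0 := by
      rintro rfl
      have := h 0
      simp at this
    have hn : 0 < ‖a‖ := norm_pos_iff.mpr ha
    apply ea_unit hv (a := ‖a‖⁻¹ • a)
    · rw [norm_smul, norm_inv, norm_norm, inv_mul_cancel₀ hn.ne']
    · intro b hb' x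
      rw [real_inner_smul_left] at hb'
      exact hb b ((mul_eq_zero.mp hb').resolve_left (inv_ne_zero hn.ne')) x
    · intro x
      rw [map_smul, smul_eq_mul]
      exact mul_pos (inv_pos.mpr hn) (h x)
  · exact ea_const (by norm_num) h
  · exact ea_const (by norm_num) h

end Pool.Agent.Helper59.DGL
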