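import Pool.Agent.Helper70.DGL.Fr
import Pool.Agent.Helper68.DG.D3

/-!
# Project DGL (MP_800410_an, De Giorgi), piece EP: comparison with the energy of the profile
-/

set_option autoImplicit false

open MeasureTheory Metric Set Filter Topology
open scoped ContDiff

namespace Pool.Agent.Helper59.DGL

open Pool.Agent.Helper68.DG Pool.Agent.Helper70.DGL

/-- Piece EP (the proof of `EE_of_profile` with the constants). -/
theorem s_EP : S_EP := by
  intro ι _ K u v hu hv e he hlim hlim' ζ hζ hζ0
  have hK := hu.K_nonneg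
  have hgc : Continuous (fun x => ‖fderiv ℝ ζ x‖) := (hζ.1.continuous_fderiv one_ne_zero).norm
  have hgs : HasCompactSupport (fun x => ‖fderiv ℝ ζ x‖) := (hζ.2.fderiv (𝕜 := ℝ)).norm
  have hgi : Integrable (fun x => ‖fderiv ℝ ζ x‖) := integrable_cs hgc hgs
  have hζi : Integrable ζ := integrable_cs hζ.continuous hζ.2
  set J : ℝ → ℝ := fun t => (∫ x, ζ x * en u (x + t • e)) +
    K * ∫ x, ‖fderiv ℝ ζ x‖ * u (x + t • e) with hJ
  set J' : ℝ → ℝ := fun t => (∫ x, ζ x * fderiv ℝ (en u) (x + t • e) e) +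
    K * ∫ x, ‖fderiv ℝ ζ x‖ * fderiv ℝ u (x + t • e) e with hJ'
  have hder : ∀ t, HasDerivAt J (J' t) t := by
    intro t
    exact (d3_deriv hζ.continuous hζ.2 (d3_contDiff_en hu.smooth) e t).add
      ((d3_deriv hgc hgs hu.C1 e t).const_mul K)
  have hnn : ∀ t, 0 ≤ J' t := by
    intro t
    -- the translates
    set ut : V ι → ℝ := fun x => u (x + t • e) with hut
    set wt : V ι → ℝ := fun x => fderiv ℝ u (x + t • e) e with hwt
    have hutC : ContDiff ℝ 2 ut := hu.smooth.comp (contDiff_id.add contDiff_const)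
    have hwtC : ContDiff ℝ 1 wt :=
      (d3_contDiff_w hu.smooth e).comp (contDiff_id.add contDiff_const)
    have hφ : T1 (fun x => wt x * ζ x) := T1.mul hwtC hζ
    have hw := integral_gd hutC hφ
    have hgd : ∀ x, gd ut (fun x => wt x * ζ x) x = ζ x * gd ut wt x + wt x * gd ut ζ x := by
      intro x
      unfold gd
      rw [Finset.mul_sum, Finset.mul_sum, ← Finset.sum_add_distrib]
      apply Finset.sum_congr rfl
      intro i _
      rw [pd_mul ((hwtC.differentiable one_ne_zero) x) ((hζ.1.differentiable one_ne_zero) x)]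
      ring
    have hutC1 : ContDiff ℝ 1 ut := hutC.of_le (by norm_num)
    have hi1 : Integrable (fun x => ζ x * gd ut wt x) :=
      integrable_cs (hζ.continuous.mul (continuous_gd hutC1 hwtC)) hζ.2.mul_right
    have hi2 : Integrable (fun x => wt x * gd ut ζ x) :=
      integrable_cs (hwtC.continuous.mul (continuous_gd hutC1 hζ.1))
        (hasCompactSupport_gd hζ.2).mul_left
    have hi3 : Integrable (fun x => (ut x - ut x ^ 3) * (wt x * ζ x)) := by
      refine integrable_mul_T1 ?_ hφ
      exact hutC.continuous.sub (hutC.continuous.pow 3)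
    have hlap : ∀ x, lap ut x = -(ut x - ut x ^ 3) := by
      intro x
      rw [hut, lap_translate, lap_eq hu]
      ring
    have e1 : (∫ x, ζ x * gd ut wt x) + ∫ x, wt x * gd ut ζ x =
        ∫ x, (ut x - ut x ^ 3) * (wt x * ζ x) := by
      rw [← integral_add hi1 hi2]
      have : (fun x => ζ x * gd ut wt x + wt x * gd ut ζ x) =
          gd ut (fun x => wt x * ζ x) := by
        funext x; rw [hgd]
      rw [this, hw, ← integral_neg]
      congr 1
      funext x
      rw [hlap]
      ring
    have e2 : (∫ x, ζ x * fderiv ℝ (en u) (x + t • e) e) =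
        (∫ x, ζ x * gd ut wt x) - ∫ x, (ut x - ut x ^ 3) * (wt x * ζ x) := by
      rw [← integral_sub hi1 hi3]
      congr 1
      funext x
      rw [d3_fderiv_en hu.smooth]
      have : gd u (fun x => fderiv ℝ u x e) (x + t • e) = gd ut wt x := by
        unfold gd
        apply Finset.sum_congr rfl
        intro i _
        rw [hut, hwt, pd_translate, pd_translate (fun x => fderiv ℝ u x e)]
      rw [this]
      simp only [hut, hwt]
      ring
    have e3 : (∫ x, wt x * gd ut ζ x) ≤ K * ∫ x, ‖fderiv ℝ ζ x‖ * wt x := by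
      rw [← integral_const_mul]
      apply integral_mono hi2
      · exact (integrable_cs (hgc.mul hwtC.continuous) hgs.mul_right).const_mul K
      · intro x
        have h1 : gd ut ζ x ≤ K * ‖fderiv ℝ ζ x‖ := by
          refine (le_abs_self _).trans ((abs_gd_le _ _ _).trans ?_)
          apply mul_le_mul_of_nonneg_right _ (norm_nonneg _)
          have : fderiv ℝ ut x = fderiv ℝ u (x + t • e) := by
            rw [hut, fderiv_comp_add_right]
          rw [this]
          exact hu.bdd1 _
        have h2 : 0 ≤ wt x := he _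
        have h3 := mul_le_mul_of_nonneg_left h1 h2
        change wt x * gd ut ζ x ≤ K * (‖fderiv ℝ ζ x‖ * wt x)
        calc wt x * gd ut ζ x ≤ wt x * (K * ‖fderiv ℝ ζ x‖) := h3
          _ = K * (‖fderiv ℝ ζ x‖ * wt x) := by ring
    have e4 : J' t = (∫ x, ζ x * fderiv ℝ (en u) (x + t • e) e) +
        K * ∫ x, ‖fderiv ℝ ζ x‖ * wt x := rfl
    rw [e4, e2]
    linarith
  have hmono : Monotone J := by
    apply monotone_of_deriv_nonneg
    · exact fun t => (hder t).differentiableAt
    · intro t
      rw [(hder t).deriv]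
      exact hnn t
  -- the limit
  have hen : ∀ x, |en u x| ≤ K ^ 2 / 2 + (1 + K ^ 2) ^ 2 / 4 := by
    intro x
    have h1 : 0 ≤ en u x := by
      unfold en
      have := gd_self_nonneg u x
      positivity
    rw [abs_of_nonneg h1]
    unfold en
    rw [gd_self]
    have h2 : ‖fderiv ℝ u x‖ ^ 2 ≤ K ^ 2 := pow_le_pow_left₀ (norm_nonneg _) (hu.bdd1 x) 2
    have h3 : u x ^ 2 ≤ K ^ 2 := by
      rw [← sq_abs]
      exact pow_le_pow_left₀ (abs_nonneg _) (hu.bdd x) 2
    have h4 : (1 - u x ^ 2) ^ 2 ≤ (1 + K ^ 2) ^ 2 := by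
      apply sq_le_sq'
      · nlinarith [sq_nonneg (u x)]
      · nlinarith [sq_nonneg (u x)]
    linarith
  have hl1 : Tendsto (fun t : ℝ => ∫ x, ζ x * en u (x + t • e)) atTop
      (𝓝 (∫ x, ζ x * en v x)) := by
    refine tendsto_integral_filter_of_dominated_convergence
      (fun x => |ζ x| * (K ^ 2 / 2 + (1 + K ^ 2) ^ 2 / 4)) ?_ ?_ ?_ ?_
    · refine Filter.Eventually.of_forall fun t => ?_
      exact (hζ.continuous.mul ((d3_contDiff_en hu.smooth).continuous.comp
        (by fun_prop))).aestronglyMeasurable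
    · refine Filter.Eventually.of_forall fun t => Filter.Eventually.of_forall fun x => ?_
      rw [norm_mul, Real.norm_eq_abs, Real.norm_eq_abs]
      exact mul_le_mul_of_nonneg_left (hen _) (abs_nonneg _)
    · exact hζi.abs.mul_const _
    · refine Filter.Eventually.of_forall fun x => ?_
      apply Tendsto.const_mul
      have h1 : ∀ z : V ι → ℝ, ∀ y, en z y = ‖fderiv ℝ z y‖ ^ 2 / 2 + (1 - z y ^ 2) ^ 2 / 4 := by
        intro z y
        unfold en
        rw [gd_self]
      simp only [h1]
      exact (((hlim' x).norm.pow 2).div_const 2).add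
        (((tendsto_const_nhds.sub ((hlim x).pow 2)).pow 2).div_const 4)
  have hl2 : Tendsto (fun t : ℝ => ∫ x, ‖fderiv ℝ ζ x‖ * u (x + t • e)) atTop
      (𝓝 (∫ x, ‖fderiv ℝ ζ x‖ * v x)) := by
    refine tendsto_integral_filter_of_dominated_convergence
      (fun x => ‖fderiv ℝ ζ x‖ * K) ?_ ?_ ?_ ?_
    · refine Filter.Eventually.of_forall fun t => ?_
      exact (hgc.mul (hu.C1.continuous.comp (by fun_prop))).aestronglyMeasurable
    · refine Filter.Eventually.of_forall fun t => Filter.Eventually.of_forall fun x => ?_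
      rw [norm_mul, norm_norm, Real.norm_eq_abs]
      exact mul_le_mul_of_nonneg_left (hu.bdd _) (norm_nonneg _)
    · exact hgi.mul_const _
    · refine Filter.Eventually.of_forall fun x => ?_
      exact (hlim x).const_mul _
  have hJl : Tendsto J atTop (𝓝 ((∫ x, ζ x * en v x) + K * ∫ x, ‖fderiv ℝ ζ x‖ * v x)) :=
    hl1.add (hl2.const_mul K)
  have hJ0 : J 0 ≤ (∫ x, ζ x * en v x) + K * ∫ x, ‖fderiv ℝ ζ x‖ * v x := by
    apply ge_of_tendsto hJl
    filter_upwards [Filter.eventually_ge_atTop (0 : ℝ)] with t ht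
    exact hmono ht
  have hJ0' : J 0 = (∫ x, ζ x * en u x) + K * ∫ x, ‖fderiv ℝ ζ x‖ * u x := by
    simp only [hJ, zero_smul, add_zero]
  have hb1 : ∫ x, ‖fderiv ℝ ζ x‖ * v x ≤ K * ∫ x, ‖fderiv ℝ ζ x‖ := by
    rw [← integral_const_mul]
    apply integral_mono
    · exact integrable_cs (hgc.mul hv.C1.continuous) hgs.mul_right
    · exact hgi.const_mul K
    · intro x
      have h1 := (abs_le.mp (hv.bdd x)).2
      have h2 := mul_le_mul_of_nonneg_left h1 (norm_nonneg (fderiv ℝ ζ x))
      change ‖fderiv ℝ ζ x‖ * v x ≤ K * ‖fderiv ℝ ζ x‖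
      linarith
  have hb2 : -(K * ∫ x, ‖fderiv ℝ ζ x‖) ≤ ∫ x, ‖fderiv ℝ ζ x‖ * u x := by
    rw [← integral_const_mul, ← integral_neg]
    apply integral_mono
    · exact (hgi.const_mul K).neg
    · exact integrable_cs (hgc.mul hu.C1.continuous) hgs.mul_right
    · intro x
      have h1 := (abs_le.mp (hu.bdd x)).1
      have h2 := mul_le_mul_of_nonneg_left h1 (norm_nonneg (fderiv ℝ ζ x))
      change -(K * ‖fderiv ℝ ζ x‖) ≤ ‖fderiv ℝ ζ x‖ * u x
      linarith
  have hb1' := mul_le_mul_of_nonneg_left hb1 hK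
  have hb2' := mul_le_mul_of_nonneg_left hb2 hK
  rw [hJ0'] at hJ0
  nlinarith

end Pool.Agent.Helper59.DGL
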