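import Pool.Agent.Helper59.DGL.Tr
import Pool.Agent.Helper68.DG.T1
import Pool.Agent.Helper68.DG.T2
import Pool.Agent.Helper68.DG.A4

/-!
# Project DGL (MP_800410_an, De Giorgi), piece FI: the count in a general subspace
-/

set_option autoImplicit false

open MeasureTheory Metric Set Filter Topology
open scoped ContDiff

namespace Pool.Agent.Helper59.DGL

open Pool.Agent.Helper68.DG Pool.Agent.Helper70.DGL

theorem fi_card {m k : ℕ} (hk : k ≤ m) :
    Fintype.card {i : Fin (m + 1) // 1 ≤ i.val ∧ i.val ≤ k} = k := by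
  have e : Fin k ≃ {i : Fin (m + 1) // 1 ≤ i.val ∧ i.val ≤ k} :=
    { toFun := fun j => ⟨⟨j.val + 1, by omega⟩, by
        show 1 ≤ j.val + 1 ∧ j.val + 1 ≤ k
        omega⟩
      invFun := fun i => ⟨i.1.val - 1, by
        have := i.2
        omega⟩
      left_inv := fun j => Fin.ext (by simp)
      right_inv := fun i => Subtype.ext (Fin.ext (by
        have := i.2
        show i.1.val - 1 + 1 = i.1.val
        omega)) }
  rw [← Fintype.card_congr e, Fintype.card_fin]

/-- A subspace which contains the images of the coordinate vectors is the image of the coordinate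
subspace, if the dimensions agree. -/
theorem fi_range {ι : Type} [Fintype ι] [DecidableEq ι] (p : ι → Prop) [DecidablePred p]
    (T : V ι ≃ₗᵢ[ℝ] V ι) (F : Submodule ℝ (V ι)) (hF : ∀ i, p i → T (be i) ∈ F)
    (hd : Fintype.card {i // p i} = Module.finrank ℝ F) {w : V ι} (hw : w ∈ F) :
    ∃ y : V {i // p i}, T (emb p y) = w := by
  set L : V {i // p i} →ₗ[ℝ] V ι :=
    (T.toLinearEquiv : V ι →ₗ[ℝ] V ι).comp (emb p : V {i // p i} →L[ℝ] V ι).toLinearMap with hL
  have hLa : ∀ y, L y = T (emb p y) := fun y => rfl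
  have hinj : Function.Injective L := by
    intro y z hyz
    rw [hLa, hLa] at hyz
    have := T.injective hyz
    rw [← prj_emb p y, ← prj_emb p z, this]
  have hle : LinearMap.range L ≤ F := by
    rintro _ ⟨y, rfl⟩
    rw [hLa, sum_be (emb p y), map_sum]
    apply F.sum_mem
    intro i _
    rw [map_smul]
    by_cases hi : p i
    · exact F.smul_mem _ (hF i hi)
    · rw [emb_apply, dif_neg hi, zero_smul]
      exact F.zero_mem
  have hfin : Module.finrank ℝ (LinearMap.range L) = Module.finrank ℝ F := by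
    rw [LinearMap.finrank_range_of_inj hinj, finrank_euclideanSpace, hd]
  have heq := Submodule.eq_of_le_of_finrank_eq hle hfin
  rw [← heq] at hw
  obtain ⟨y, hy⟩ := hw
  exact ⟨y, hy⟩

/-- Piece FI. -/
theorem s_FI (hB : S_B) (hTA : S_TA) (hBD : S_BD) (hUR : S_UR) : S_FI := by
  classical
  intro n F hn e he r δ ε hδ hε
  obtain ⟨m, rfl⟩ : ∃ m, n = m + 1 := by
    rcases n with _ | m
    · exfalso
      apply he
      rw [Subsingleton.elim e 0]
      exact F.zero_mem
    · exact ⟨m, rfl⟩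
  set k := Module.finrank ℝ F with hkdef
  have hk : k ≤ m := by
    have h1 : F ≠ ⊤ := fun h => he (by rw [h]; exact Submodule.mem_top)
    have h2 := Submodule.finrank_lt h1
    rw [finrank_euclideanSpace, Fintype.card_fin] at h2
    omega
  set v := e - F.starProjection e with hv
  have hvF : ∀ f ∈ F, inner ℝ f v = 0 := fun f hf =>
    (Submodule.mem_orthogonal F _).1 (Submodule.sub_starProjection_mem_orthogonal e) f hf
  have hfF : F.starProjection e ∈ F := Submodule.starProjection_apply_mem _ _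
  have hv0 : v ≠ 0 := by
    intro h
    apply he
    rw [hv, sub_eq_zero] at h
    rw [h]
    exact hfF
  obtain ⟨T, ⟨c, hc, hT0⟩, hTF⟩ := exists_adapted F rfl hv0 hvF hk
  have hcard : Fintype.card {i : Fin (m + 1) // 1 ≤ i.val ∧ i.val ≤ k} = k := fi_card hk
  have hcard' : Fintype.card {i : Fin (m + 1) // ¬ (1 ≤ i.val ∧ i.val ≤ k)} ≤ 3 := by
    rw [Fintype.card_subtype_compl, hcard, Fintype.card_fin]
    omega
  have hrange : ∀ w ∈ F, ∃ y : V {i : Fin (m + 1) // 1 ≤ i.val ∧ i.val ≤ k},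
      T (emb (fun i : Fin (m + 1) => 1 ≤ i.val ∧ i.val ≤ k) y) = w := fun w hw =>
    fi_range (fun i : Fin (m + 1) => 1 ≤ i.val ∧ i.val ≤ k) T F (fun i hi => hTF i hi.1 hi.2)
      hcard hw
  -- the direction in the new coordinates
  obtain ⟨y₀, hy₀⟩ := hrange _ hfF
  have he' : T.symm e = emb (fun i : Fin (m + 1) => 1 ≤ i.val ∧ i.val ≤ k) y₀ +
      c⁻¹ • be 0 := by
    rw [LinearIsometryEquiv.symm_apply_eq, map_add, hy₀, map_smul, hT0, smul_smul,
      inv_mul_cancel₀ hc.ne', one_smul, hv]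
    abel
  have hp0 : ¬ (1 ≤ (0 : Fin (m + 1)).val ∧ (0 : Fin (m + 1)).val ≤ k) := by simp
  have he0 : (T.symm e) 0 ≠ 0 := by
    rw [he', PiLp.add_apply, PiLp.smul_apply, emb_apply, dif_neg hp0, be_apply, if_pos rfl]
    simp [hc.ne']
  have hei : ∀ i : Fin (m + 1), ¬ (1 ≤ i.val ∧ i.val ≤ k) → i ≠ 0 → (T.symm e) i = 0 := by
    intro i hi hi0
    rw [he', PiLp.add_apply, PiLp.smul_apply, emb_apply, dif_neg hi, be_apply, if_neg hi0]
    simp
  obtain ⟨K, hK⟩ := hUR (Fin (m + 1)) 1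
  obtain ⟨R₀, hR₀⟩ := hB (Fin (m + 1)) (fun i => 1 ≤ i.val ∧ i.val ≤ k) 0 hp0 hcard' (T.symm e)
    he0 hei K r (δ / 2) ε (half_pos hδ) hε
  refine ⟨R₀, fun R hR u hu hue x₀ S hS1 hS2 hS3 => ?_⟩
  obtain ⟨hu2, ⟨M, hM⟩, heq⟩ := hu
  have heq' : ∀ x, lap u x + u x - u x ^ 3 = 0 := fun x => by
    rw [lap_eq_laplacian hu2]; exact heq x
  obtain ⟨K', hK'⟩ := hUR (Fin (m + 1)) M
  have hG' := hK' u hu2 hM heq'
  have hG := hK u hu2 (hBD _ K' u hG' (stab_of_pos hG' e hue)) heq'
  have hGt := gs_tr hG x₀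
  have hGT := GS.isom T hGt
  have hmono : ∀ x, 0 < fderiv ℝ (fun y => tr x₀ u (T y)) x (T.symm e) := by
    intro x
    rw [fderiv_isom T hGt.C1, LinearIsometryEquiv.apply_symm_apply, fderiv_tr]
    exact hue _
  set z : V (Fin (m + 1)) → V {i : Fin (m + 1) // 1 ≤ i.val ∧ i.val ≤ k} := fun w =>
    prj (fun i : Fin (m + 1) => 1 ≤ i.val ∧ i.val ≤ k) (T.symm (w - x₀)) with hz
  have hzT : ∀ w ∈ S, T (emb (fun i : Fin (m + 1) => 1 ≤ i.val ∧ i.val ≤ k) (z w)) = w - x₀ := by
    intro w hw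
    obtain ⟨y, hy⟩ := hrange _ (hS2 w hw).1
    rw [hz]
    simp only
    rw [← hy, LinearIsometryEquiv.symm_apply_apply, prj_emb]
  have hzn : ∀ w ∈ S, ∀ w' ∈ S, ‖z w - z w'‖ = ‖w - w'‖ := by
    intro w hw w' hw'
    rw [← norm_emb (fun i : Fin (m + 1) => 1 ≤ i.val ∧ i.val ≤ k), map_sub, ← T.norm_map,
      map_sub, hzT w hw, hzT w' hw', sub_sub_sub_cancel_right]
  have hcardS : (S.image z).card = S.card := by
    apply Finset.card_image_of_injOn
    intro w hw w' hw' hww
    by_contra hne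
    have h1 := hS1 w hw w' hw' hne
    rw [← hzn w hw w' hw', hww, sub_self, norm_zero] at h1
    linarith
  have hfin := hR₀ R hR (fun y => tr x₀ u (T y)) hGT hmono 0 (S.image z) ?_ ?_ ?_
  · rw [hcardS, hcard] at hfin
    exact hfin
  · intro a ha b hb hab
    obtain ⟨w, hw, rfl⟩ := Finset.mem_image.1 ha
    obtain ⟨w', hw', rfl⟩ := Finset.mem_image.1 hb
    rw [hzn w hw w' hw']
    exact hS1 w hw w' hw' fun h => hab (by rw [h])
  · intro a ha
    obtain ⟨w, hw, rfl⟩ := Finset.mem_image.1 ha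
    rw [sub_zero, ← norm_emb (fun i : Fin (m + 1) => 1 ≤ i.val ∧ i.val ≤ k), ← T.norm_map,
      hzT w hw]
    exact (hS2 w hw).2
  · intro a ha hclose
    obtain ⟨w, hw, rfl⟩ := Finset.mem_image.1 ha
    apply hS3 w hw
    obtain ⟨g, hg1, hg2, hg3⟩ := hclose
    obtain ⟨b, d, hb, hbd⟩ := hTA (Fin (m + 1)) K r (δ / 2) g hg1 hg2 (half_pos hδ)
    refine ⟨T b, d + inner ℝ (T b) w, by rw [T.norm_map]; exact hb, fun x hx => ?_⟩
    have hx' : ‖T.symm (x - w)‖ ≤ r := by
      rw [LinearIsometryEquiv.norm_map]; exact hx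
    have h1 := (hg3 _ hx').1
    have h2 := hbd _ hx'
    have h3 : tr (emb (fun i : Fin (m + 1) => 1 ≤ i.val ∧ i.val ≤ k) (z w))
        (fun y => tr x₀ u (T y)) (T.symm (x - w)) = u x := by
      show u (T (T.symm (x - w) + emb (fun i : Fin (m + 1) => 1 ≤ i.val ∧ i.val ≤ k) (z w)) +
        x₀) = u x
      rw [map_add, LinearIsometryEquiv.apply_symm_apply, hzT w hw]
      congr 1
      abel
    have h4 : inner ℝ b (T.symm (x - w)) = inner ℝ (T b) x - inner ℝ (T b) w := by
      rw [← T.inner_map_map, LinearIsometryEquiv.apply_symm_apply, inner_sub_right]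
    rw [h3] at h1
    rw [h4] at h2
    have h5 : inner ℝ (T b) x - (d + inner ℝ (T b) w) = inner ℝ (T b) x - inner ℝ (T b) w - d := by
      ring
    rw [h5]
    have h6 := abs_add_le (u x - g (T.symm (x - w)))
      (g (T.symm (x - w)) - Real.tanh ((inner ℝ (T b) x - inner ℝ (T b) w - d) / √2))
    rw [sub_add_sub_cancel] at h6
    linarith

end Pool.Agent.Helper59.DGL
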