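import Pool.Agent.Helper70.DGL.Fr
import Pool.Agent.Helper68.DG.A6a
import Pool.Agent.Helper68.DG.A6b
import Pool.Agent.Helper68.DG.C1

/-!
# Project DGL (MP_800410_an, De Giorgi): translates and projections
-/

set_option autoImplicit false

open MeasureTheory Metric Set Filter Topology
open scoped ContDiff

namespace Pool.Agent.Helper59.DGL

open Pool.Agent.Helper68.DG Pool.Agent.Helper70.DGL

variable {ι : Type} [Fintype ι]

theorem fderiv_tr (v : V ι) (u : V ι → ℝ) (x : V ι) :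
    fderiv ℝ (tr v u) x = fderiv ℝ u (x + v) := fderiv_comp_add_right v

theorem gs_tr {K : ℝ} {u : V ι → ℝ} (hu : GS K u) (v : V ι) : GS K (tr v u) := by
  have h1' : fderiv ℝ (tr v u) = fun x => fderiv ℝ u (x + v) := funext (fderiv_tr v u)
  have h2 : ∀ x, fderiv ℝ (fun x => fderiv ℝ u (x + v)) x = fderiv ℝ (fderiv ℝ u) (x + v) :=
    fun x => fderiv_comp_add_right v
  refine ⟨hu.smooth.comp (contDiff_id.add contDiff_const), fun x => ?_, fun x => hu.bdd _,
    fun x => ?_, fun x y => ?_, fun x y => ?_⟩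
  · show lap (fun y => u (y + v)) x + u (x + v) - u (x + v) ^ 3 = 0
    rw [lap_translate]; exact hu.eqn _
  · rw [fderiv_tr]; exact hu.bdd1 _
  · rw [fderiv_tr, fderiv_tr]
    have := hu.lip1 (x + v) (y + v)
    rwa [add_sub_add_right_eq_sub] at this
  · rw [h1', h2, h2]
    have := hu.lip2 (x + v) (y + v)
    rwa [add_sub_add_right_eq_sub] at this

theorem stab_tr {u : V ι → ℝ} (hst : Stab u) (v : V ι) : Stab (tr v u) := by
  intro ζ hζ
  have hζ' : T1 (fun x => ζ (x + -v)) :=
    ⟨hζ.1.comp (contDiff_id.add contDiff_const), hζ.2.comp_homeomorph (Homeomorph.addRight (-v))⟩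
  have h1 := hst _ hζ'
  have h2 : ∫ x, cc (tr v u) x * ζ x ^ 2 = ∫ x, cc u x * ζ (x + -v) ^ 2 := by
    rw [← integral_add_right_eq_self (fun x => cc u x * ζ (x + -v) ^ 2) v]
    congr 1
    funext x
    rw [add_neg_cancel_right]
    rfl
  have h3 : ∫ x, gd (fun y => ζ (y + -v)) (fun y => ζ (y + -v)) x = ∫ x, gd ζ ζ x := by
    rw [← integral_add_right_eq_self (fun x => gd ζ ζ x) (-v)]
    congr 1
    funext x
    unfold gd
    apply Finset.sum_congr rfl
    intro i _
    rw [pd_translate ζ (-v) i x]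
  rw [h2, ← h3]
  exact h1

theorem norm_prj_le (p : ι → Prop) [DecidablePred p] (x : V ι) : ‖prj p x‖ ≤ ‖x‖ := by
  rw [EuclideanSpace.norm_eq, EuclideanSpace.norm_eq]
  apply Real.sqrt_le_sqrt
  rw [← Fintype.sum_subtype_add_sum_subtype p (fun i => ‖x i‖ ^ 2)]
  have h1 : ∑ i : {i // p i}, ‖prj p x i‖ ^ 2 = ∑ i : {i // p i}, ‖x i.1‖ ^ 2 := rfl
  rw [h1]
  exact le_add_of_nonneg_right (Finset.sum_nonneg fun i _ => by positivity)

theorem prj_not_emb (p : ι → Prop) [DecidablePred p] (z : V {i // p i}) :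
    prj (fun i => ¬ p i) (emb p z) = 0 := by
  ext i
  rw [prj_apply, emb_apply, dif_neg i.2]
  rfl

theorem lg_le_of_norm {x : V ι} {R : ℝ} (h : ‖x‖ ≤ R) : lg x ≤ Real.log (1 + R ^ 2) / 2 := by
  unfold lg
  have h1 : ‖x‖ ^ 2 ≤ R ^ 2 := pow_le_pow_left₀ (norm_nonneg _) h 2
  have h2 : Real.log (1 + ‖x‖ ^ 2) ≤ Real.log (1 + R ^ 2) :=
    Real.log_le_log (by positivity) (by linarith)
  linarith

/-- the gradients of a product of functions of the two groups of coordinates -/
theorem int_gd_prod (p : ι → Prop) [DecidablePred p] {f : V {i // p i} → ℝ}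
    {g : V {i // ¬ p i} → ℝ} (hf : T1 f) (hg : T1 g) :
    ∫ x, gd (fun x => f (prj p x) * g (prj (fun i => ¬ p i) x))
      (fun x => f (prj p x) * g (prj (fun i => ¬ p i) x)) x =
    (∫ y, gd f f y) * (∫ z, g z ^ 2) + (∫ y, f y ^ 2) * ∫ z, gd g g z := by
  have hgsq : Continuous fun z => g z ^ 2 := hg.continuous.pow 2
  have hgsq' : HasCompactSupport fun z => g z ^ 2 :=
    hg.2.comp_left (g := fun t : ℝ => t ^ 2) (by norm_num)
  have hesq : Continuous fun y => f y ^ 2 := hf.continuous.pow 2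
  have hesq' : HasCompactSupport fun y => f y ^ 2 :=
    hf.2.comp_left (g := fun t : ℝ => t ^ 2) (by norm_num)
  have hI1 : Integrable fun x : V ι => gd f f (prj p x) * g (prj (fun i => ¬ p i) x) ^ 2 :=
    a6b_int p (f := gd f f) (g := fun z => g z ^ 2) (continuous_gd hf.1 hf.1) hgsq
      (hasCompactSupport_gd hf.2) hgsq'
  have hI2 : Integrable fun x : V ι => f (prj p x) ^ 2 * gd g g (prj (fun i => ¬ p i) x) :=
    a6b_int p (f := fun y => f y ^ 2) (g := gd g g) hesq (continuous_gd hg.1 hg.1) hesq'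
      (hasCompactSupport_gd hg.2)
  rw [← integral_split p (gd f f) (fun z => g z ^ 2), ← integral_split p (fun y => f y ^ 2) (gd g g),
    ← integral_add hI1 hI2]
  apply integral_congr_ae
  refine Eventually.of_forall fun x => ?_
  simp only
  rw [a6b_gd p hf.1 hg.1 x]

/-- a product of test functions is a test function -/
theorem T1_prod (p : ι → Prop) [DecidablePred p] {f : V {i // p i} → ℝ}
    {g : V {i // ¬ p i} → ℝ} (hf : T1 f) (hg : T1 g) :
    T1 fun x : V ι => f (prj p x) * g (prj (fun i => ¬ p i) x) :=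
  ⟨(hf.1.comp (prj p).contDiff).mul (hg.1.comp (prj (fun i => ¬ p i)).contDiff),
    a6b_cs p hf.2 hg.2⟩

end Pool.Agent.Helper59.DGL
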